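import Pool.Agent.W728.PK.Stms

/-!
# PK-EXS: summability of the block masses
-/

namespace Pool.Agent.W705.PK

open Pool.Agent.W728.PK

theorem lev_pow (α : ℝ) (ha : 0 < α) (j : ℕ) :
    (lev j ^ (1 / α) / 64) ^ (1 - α)
      = (2 : ℝ) ^ (-(((j : ℝ) + 1) * (1 / α - 1))) / (64 : ℝ) ^ (1 - α) := by
  have h1 : lev j = (2 : ℝ) ^ (-((j : ℝ) + 1)) := by
    unfold lev
    rw [one_div, inv_pow, ← Real.rpow_natCast, Real.rpow_neg (by norm_num)]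
    push_cast
    rfl
  rw [Real.div_rpow (by rw [h1]; positivity) (by norm_num), h1, ← Real.rpow_mul (by norm_num : (0 : ℝ) ≤ 2),
    ← Real.rpow_mul (by norm_num : (0 : ℝ) ≤ 2)]
  congr 2
  field_simp

theorem mass_le (α : ℝ) (ha : 0 < α) (ha1 : α < 1) (j : ℕ) :
    (lev j ^ (1 / α) / 64) ^ (1 - α) ≤ (2 : ℝ) ^ (-(((j : ℝ) + 1) * (1 / α - 1))) := by
  rw [lev_pow α ha]
  apply div_le_self (by positivity)
  exact Real.one_le_rpow (by norm_num) (by linarith)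

theorem NN_pos (α : ℝ) (j : ℕ) : 1 ≤ NN α j := by
  unfold NN
  rw [Nat.one_le_ceil_iff]
  positivity

theorem NN_le (α : ℝ) (j : ℕ) :
    (NN α j : ℝ) ≤ (2 : ℝ) ^ (((j : ℝ) + 1) * (1 / α - 1)) * ((j : ℝ) + 1) ^ (-(1 / α)) + 1 := by
  unfold NN
  exact (Nat.ceil_lt_add_one (by positivity)).le

theorem pow_J_le (α : ℝ) (ha : 0 < α) (j : ℕ) : ((j : ℝ) + 1) ^ (-(1 / α)) ≤ 1 := by
  apply Real.rpow_le_one_of_one_le_of_nonpos
  · linarith [(Nat.cast_nonneg j : (0 : ℝ) ≤ j)]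
  · have : 0 < 1 / α := by positivity
    linarith

theorem nu_le (α : ℝ) (ha : 0 < α) (ha1 : α < 1) (j : ℕ) :
    (NN α j : ℝ) * (lev j ^ (1 / α) / 64) ^ (1 - α)
      ≤ ((j : ℝ) + 1) ^ (-(1 / α)) + (2 : ℝ) ^ (-(((j : ℝ) + 1) * (1 / α - 1))) := by
  have h1 := mass_le α ha ha1 j
  have h2 := NN_le α j
  have h3 : (2 : ℝ) ^ (((j : ℝ) + 1) * (1 / α - 1)) * (2 : ℝ) ^ (-(((j : ℝ) + 1) * (1 / α - 1))) = 1 := by
    rw [← Real.rpow_add (by norm_num)]; simp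
  have h4 : 0 < (2 : ℝ) ^ (-(((j : ℝ) + 1) * (1 / α - 1))) := by positivity
  have h5 : 0 ≤ (lev j ^ (1 / α) / 64) ^ (1 - α) := by
    rw [lev_pow α ha]; positivity
  calc (NN α j : ℝ) * (lev j ^ (1 / α) / 64) ^ (1 - α)
      ≤ (NN α j : ℝ) * (2 : ℝ) ^ (-(((j : ℝ) + 1) * (1 / α - 1))) := by gcongr
    _ ≤ ((2 : ℝ) ^ (((j : ℝ) + 1) * (1 / α - 1)) * ((j : ℝ) + 1) ^ (-(1 / α)) + 1) *
          (2 : ℝ) ^ (-(((j : ℝ) + 1) * (1 / α - 1))) := by gcongr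
    _ = ((2 : ℝ) ^ (((j : ℝ) + 1) * (1 / α - 1)) * (2 : ℝ) ^ (-(((j : ℝ) + 1) * (1 / α - 1)))) *
          ((j : ℝ) + 1) ^ (-(1 / α)) + (2 : ℝ) ^ (-(((j : ℝ) + 1) * (1 / α - 1))) := by ring
    _ = _ := by rw [h3, one_mul]

theorem log_NN_le (α : ℝ) (ha : 0 < α) (ha1 : α < 1) (j : ℕ) :
    Real.log (NN α j) ≤ 1 + ((j : ℝ) + 1) * (1 / α - 1) := by
  have hb : 0 < 1 / α - 1 := by
    rw [sub_pos, lt_div_iff₀ ha]; linarith
  have hJ : (1 : ℝ) ≤ (j : ℝ) + 1 := by linarith [(Nat.cast_nonneg j : (0 : ℝ) ≤ j)]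
  have hx : 0 ≤ ((j : ℝ) + 1) * (1 / α - 1) := by positivity
  have h1 : (1 : ℝ) ≤ (2 : ℝ) ^ (((j : ℝ) + 1) * (1 / α - 1)) := Real.one_le_rpow (by norm_num) hx
  have h2 : (NN α j : ℝ) ≤ 2 * (2 : ℝ) ^ (((j : ℝ) + 1) * (1 / α - 1)) := by
    refine (NN_le α j).trans ?_
    have := mul_le_mul_of_nonneg_left (pow_J_le α ha j)
      (by positivity : 0 ≤ (2 : ℝ) ^ (((j : ℝ) + 1) * (1 / α - 1)))
    linarith
  have h3 : (0 : ℝ) < NN α j := by exact_mod_cast NN_pos α j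
  have h4 := Real.log_le_log h3 h2
  rw [Real.log_mul (by norm_num) (by positivity), Real.log_rpow (by norm_num)] at h4
  have h5 : Real.log 2 ≤ 1 := by linarith [Real.log_two_lt_d9]
  have h6 : ((j : ℝ) + 1) * (1 / α - 1) * Real.log 2 ≤ ((j : ℝ) + 1) * (1 / α - 1) :=
    mul_le_of_le_one_right hx h5
  linarith

theorem two_pow_ge (x : ℝ) (hx : 0 ≤ x) : x / 2 ≤ (2 : ℝ) ^ x := by
  have h1 : (2 : ℝ) ^ x = Real.exp (x * Real.log 2) := by
    rw [Real.rpow_def_of_pos (by norm_num), mul_comm]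
  rw [h1]
  have h2 := Real.add_one_le_exp (x * Real.log 2)
  have h3 : (0.5 : ℝ) ≤ Real.log 2 := by linarith [Real.log_two_gt_d9]
  nlinarith

theorem t_EXS : EXS_stmt := by
  intro α ha ha1
  have hb : 0 < 1 / α - 1 := by
    rw [sub_pos, lt_div_iff₀ ha]; linarith
  refine ⟨NN_pos α, ?_, ?_⟩
  · have hs1 : Summable (fun j : ℕ => ((j : ℝ) + 1) ^ (-(1 / α))) := by
      have h := (Real.summable_nat_rpow_inv (p := 1 / α)).2 (by linarith)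
      have h' := (summable_nat_add_iff 1).2 h
      refine h'.congr fun j => ?_
      rw [Real.rpow_neg (by positivity)]
      push_cast
      rfl
    have hs2 : Summable (fun j : ℕ => (2 : ℝ) ^ (-(((j : ℝ) + 1) * (1 / α - 1)))) := by
      have hr : (2 : ℝ) ^ (-(1 / α - 1)) < 1 :=
        Real.rpow_lt_one_of_one_lt_of_neg (by norm_num) (by linarith)
      have h := summable_geometric_of_lt_one (r := (2 : ℝ) ^ (-(1 / α - 1))) (by positivity) hr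
      have h' := (summable_nat_add_iff 1).2 h
      refine h'.congr fun j => ?_
      rw [← Real.rpow_natCast, ← Real.rpow_mul (by norm_num)]
      congr 1
      push_cast
      ring
    refine Summable.of_nonneg_of_le (fun j => ?_) (fun j => nu_le α ha ha1 j) (hs1.add hs2)
    rw [lev_pow α ha]; positivity
  · refine ⟨4 + (1 / α - 1) + 2, by positivity, fun j => ?_⟩
    have hJ : (1 : ℝ) ≤ (j : ℝ) + 1 := by linarith [(Nat.cast_nonneg j : (0 : ℝ) ≤ j)]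
    have hx : 0 ≤ ((j : ℝ) + 1) * (1 / α - 1) := by positivity
    have h1 := nu_le α ha ha1 j
    have h2 := log_NN_le α ha ha1 j
    have h3 := two_pow_ge _ hx
    have h4 : 0 < (2 : ℝ) ^ (((j : ℝ) + 1) * (1 / α - 1)) := by positivity
    have h5 : (2 : ℝ) ^ (-(((j : ℝ) + 1) * (1 / α - 1))) = ((2 : ℝ) ^ (((j : ℝ) + 1) * (1 / α - 1)))⁻¹ :=
      Real.rpow_neg (by norm_num) _
    have h6 : (2 : ℝ) ^ (-(((j : ℝ) + 1) * (1 / α - 1))) * (((j : ℝ) + 1) * (1 / α - 1)) ≤ 2 := by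
      rw [h5, inv_mul_le_iff₀ h4]; linarith
    have h7 : (2 : ℝ) ^ (-(((j : ℝ) + 1) * (1 / α - 1))) ≤ 1 :=
      Real.rpow_le_one_of_one_le_of_nonpos (by norm_num) (by linarith)
    have h8 : ((j : ℝ) + 1) ^ (-(1 / α)) * ((j : ℝ) + 1) ≤ 1 := by
      have h9 : ((j : ℝ) + 1) ^ (-(1 / α)) * ((j : ℝ) + 1) = ((j : ℝ) + 1) ^ (-(1 / α) + 1) := by
        rw [Real.rpow_add (by positivity), Real.rpow_one]
      rw [h9]
      exact Real.rpow_le_one_of_one_le_of_nonpos hJ (by linarith)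
    have h10 := pow_J_le α ha j
    have h11 : 0 ≤ ((j : ℝ) + 1) ^ (-(1 / α)) := by positivity
    have h12 : 0 ≤ (2 : ℝ) ^ (-(((j : ℝ) + 1) * (1 / α - 1))) := by positivity
    have h13 : 0 ≤ Real.log (NN α j) := Real.log_natCast_nonneg _
    calc (NN α j : ℝ) * (lev j ^ (1 / α) / 64) ^ (1 - α) * (1 + Real.log (NN α j))
        ≤ (((j : ℝ) + 1) ^ (-(1 / α)) + (2 : ℝ) ^ (-(((j : ℝ) + 1) * (1 / α - 1)))) *
            (1 + (1 + ((j : ℝ) + 1) * (1 / α - 1))) := by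
          apply mul_le_mul h1 (by linarith) (by linarith) (by positivity)
      _ = 2 * ((j : ℝ) + 1) ^ (-(1 / α)) + (((j : ℝ) + 1) ^ (-(1 / α)) * ((j : ℝ) + 1)) * (1 / α - 1)
            + 2 * (2 : ℝ) ^ (-(((j : ℝ) + 1) * (1 / α - 1))) +
            (2 : ℝ) ^ (-(((j : ℝ) + 1) * (1 / α - 1))) * (((j : ℝ) + 1) * (1 / α - 1)) := by ring
      _ ≤ 2 * 1 + 1 * (1 / α - 1) + 2 * 1 + 2 := by gcongr
      _ = 4 + (1 / α - 1) + 2 := by ring

end Pool.Agent.W705.PK
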